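import Pool.Agent.DO.OLog

/-!
# MP_74f563_an, n = 2 autonomous (D2), block O, file DO/OPsi: the order of two disjoint rays
-/

set_option autoImplicit false

namespace Pool.Agent.DO

open Set Filter Topology

/-- `r t = t q + o(e ^ x)` for `0 ≤ t ≤ e ^ x`. -/
def Asy (r : ℝ → ℂ) (q : ℂ) (l : Filter ℝ) : Prop :=
  ∀ ε > 0, ∀ᶠ x in l, ∀ t, 0 ≤ t → t ≤ Real.exp x → ‖r t - t * q‖ ≤ ε * Real.exp x

/-- A ray: a curve from `0` to infinity, with initial velocity `V` and asymptotic velocity `p`. -/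
structure Ray (r : ℝ → ℂ) (V p : ℂ) : Prop where
  cont : Continuous r
  zero : r 0 = 0
  ne : ∀ t > 0, r t ≠ 0
  V0 : V ≠ 0
  p0 : p ≠ 0
  bot : Asy r V atBot
  top : Asy r p atTop

/-- A continuous argument of the ray with limits `θ` at infinity and `s` at `0`. -/
structure RArg (r : ℝ → ℂ) (V p : ℂ) (A : ℝ → ℝ) (θ s : ℝ) : Prop where
  cont : Continuous A
  eq : ∀ x, r (Real.exp x) = ‖r (Real.exp x)‖ * Complex.exp (A x * Complex.I)
  dp : p = ‖p‖ * Complex.exp (θ * Complex.I)
  dV : V = ‖V‖ * Complex.exp (s * Complex.I)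
  top : Tendsto A atTop (𝓝 θ)
  bot : Tendsto A atBot (𝓝 s)

theorem Asy.lim {r : ℝ → ℂ} {q : ℂ} {l : Filter ℝ} (h : Asy r q l) :
    Tendsto (fun x => r (Real.exp x) / Real.exp x) l (𝓝 q) := by
  rw [Metric.tendsto_nhds]
  intro ε hε
  filter_upwards [h (ε / 2) (by positivity)] with x hx
  have h1 := hx (Real.exp x) (Real.exp_pos x).le le_rfl
  have h2 : (Real.exp x : ℂ) ≠ 0 := by
    rw [Complex.ofReal_ne_zero]
    exact (Real.exp_pos x).ne'
  have h3 : r (Real.exp x) / Real.exp x - q = (r (Real.exp x) - Real.exp x * q) / Real.exp x := by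
    field_simp
  rw [dist_eq_norm, h3, norm_div, Complex.norm_real, Real.norm_eq_abs, abs_of_pos (Real.exp_pos x),
    div_lt_iff₀ (Real.exp_pos x)]
  have := Real.exp_pos x
  nlinarith

theorem Asy.lim_dir {r : ℝ → ℂ} {q : ℂ} {l : Filter ℝ} (h : Asy r q l) (hq : q ≠ 0) :
    Tendsto (fun x => r (Real.exp x) / ‖r (Real.exp x)‖) l (𝓝 (q / ‖q‖)) := by
  have h1 := h.lim
  have h2 : Tendsto (fun x => (r (Real.exp x) / Real.exp x) / ‖r (Real.exp x) / Real.exp x‖) l
      (𝓝 (q / ‖q‖)) := by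
    refine h1.div ?_ ?_
    · exact (Complex.continuous_ofReal.tendsto _).comp h1.norm
    · simpa using hq
  refine h2.congr fun x => ?_
  have h3 : (Real.exp x : ℂ) ≠ 0 := by
    rw [Complex.ofReal_ne_zero]
    exact (Real.exp_pos x).ne'
  rw [norm_div, Complex.norm_real, Real.norm_eq_abs, abs_of_pos (Real.exp_pos x)]
  push_cast
  rw [div_div_div_cancel_right₀]
  simpa using h3

theorem dir_arg {q : ℂ} (hq : q ≠ 0) : q / ‖q‖ = Complex.exp (q.arg * Complex.I) :=
  (exp_arg_div hq).symm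

theorem dir_eq {q : ℂ} {θ : ℝ} (hq : q ≠ 0) (h : q / ‖q‖ = Complex.exp (θ * Complex.I)) :
    q = ‖q‖ * Complex.exp (θ * Complex.I) := by
  rw [← h]
  have : (‖q‖ : ℂ) ≠ 0 := by simpa using hq
  field_simp

theorem eq_dir {q : ℂ} {θ : ℝ} (hq : q ≠ 0) (h : q = ‖q‖ * Complex.exp (θ * Complex.I)) :
    q / ‖q‖ = Complex.exp (θ * Complex.I) := by
  have : (‖q‖ : ℂ) ≠ 0 := by simpa using hq
  rw [div_eq_iff this, mul_comm]
  exact h

theorem exp_add_int (θ : ℝ) (n : ℤ) : Complex.exp (((θ + n * (2 * Real.pi) : ℝ) : ℂ) * Complex.I) =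
    Complex.exp (θ * Complex.I) := by
  rw [Complex.exp_eq_exp_iff_exists_int]
  refine ⟨n, ?_⟩
  push_cast
  ring

/-- Existence of the argument. -/
theorem Ray.exists_arg {r : ℝ → ℂ} {V p : ℂ} (h : Ray r V p) {θ : ℝ}
    (hθ : p = ‖p‖ * Complex.exp (θ * Complex.I)) : ∃ (A : ℝ → ℝ) (s : ℝ), RArg r V p A θ s := by
  obtain ⟨F, hF, hFe⟩ := exists_log_real (f := fun x => r (Real.exp x))
    (h.cont.comp Real.continuous_exp) (fun x => h.ne _ (Real.exp_pos x))
  set B : ℝ → ℝ := fun x => (F x).im with hB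
  have hBc : Continuous B := Complex.continuous_im.comp hF
  have hBe : ∀ x, Complex.exp (B x * Complex.I) = r (Real.exp x) / ‖r (Real.exp x)‖ :=
    fun x => exp_im_div (hFe x)
  have h1 : Tendsto (fun x => Complex.exp (B x * Complex.I)) atTop
      (𝓝 (Complex.exp (θ * Complex.I))) := by
    rw [← eq_dir h.p0 hθ]
    exact (h.top.lim_dir h.p0).congr fun x => (hBe x).symm
  have h2 : Tendsto (fun x => Complex.exp (B x * Complex.I)) atBot
      (𝓝 (Complex.exp (V.arg * Complex.I))) := by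
    rw [← dir_arg h.V0]
    exact (h.bot.lim_dir h.V0).congr fun x => (hBe x).symm
  obtain ⟨n, hn⟩ := lim_arg hBc (Or.inl rfl) h1
  obtain ⟨m, hm⟩ := lim_arg hBc (Or.inr rfl) h2
  refine ⟨fun x => B x - n * (2 * Real.pi), V.arg + m * (2 * Real.pi) - n * (2 * Real.pi),
    ⟨hBc.sub continuous_const, ?_, hθ, ?_, ?_, ?_⟩⟩
  · intro x
    have e1 : Complex.exp (((B x - n * (2 * Real.pi) : ℝ) : ℂ) * Complex.I) =
        Complex.exp (B x * Complex.I) := by
      have := exp_add_int (B x - n * (2 * Real.pi)) n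
      rw [sub_add_cancel] at this
      exact this.symm
    rw [e1]
    exact dir_eq (h.ne _ (Real.exp_pos x)) (hBe x).symm
  · refine dir_eq h.V0 ?_
    rw [dir_arg h.V0]
    have e1 := exp_add_int (V.arg) (m - n)
    rw [← e1]
    congr 2
    push_cast
    ring
  · have := hn.sub_const (n * (2 * Real.pi))
    rwa [add_sub_cancel_right] at this
  · exact hm.sub_const (n * (2 * Real.pi))

/-- Shift by `2π`. -/
theorem RArg.shift {r : ℝ → ℂ} {V p : ℂ} {A : ℝ → ℝ} {θ s : ℝ} (h : RArg r V p A θ s) (n : ℤ) :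
    RArg r V p (fun x => A x + n * (2 * Real.pi)) (θ + n * (2 * Real.pi))
      (s + n * (2 * Real.pi)) where
  cont := h.cont.add continuous_const
  eq x := by rw [exp_add_int]; exact h.eq x
  dp := by rw [exp_add_int]; exact h.dp
  dV := by rw [exp_add_int]; exact h.dV
  top := h.top.add_const _
  bot := h.bot.add_const _

/-- clip to `[0, π/2]` -/
noncomputable def clip (φ : ℝ) : ℝ := max 0 (min φ (Real.pi / 2))

theorem clip_cont : Continuous clip := by unfold clip; fun_prop

theorem clip_of {φ : ℝ} (h0 : 0 ≤ φ) (h1 : φ ≤ Real.pi / 2) : clip φ = φ := by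
  unfold clip
  rw [min_eq_left h1, max_eq_right h0]

theorem clip_mem (φ : ℝ) : clip φ ∈ Icc 0 (Real.pi / 2) := by
  have := Real.pi_pos
  unfold clip
  exact ⟨le_max_left _ _, max_le (by positivity) (min_le_right _ _)⟩

/-- The difference of the logarithms near an end. -/
theorem end_diff {r r' : ℝ → ℂ} {q q' : ℂ} {l : Filter ℝ} (hr : Continuous r) (hr' : Continuous r')
    (h : Asy r q l) (h' : Asy r' q' l)
    (hr0 : r 0 = 0) (hr0' : r' 0 = 0)
    (hq : q ≠ 0) (hq' : q' ≠ 0) (hqq : q / ‖q‖ ≠ q' / ‖q'‖) {F : ℝ × ℝ → ℂ} (hF : Continuous F)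
    (hFe : ∀ z : ℝ × ℝ, Complex.exp (F z) = r (Real.exp z.1 * Real.cos (clip z.2)) -
      r' (Real.exp z.1 * Real.sin (clip z.2))) :
    ∃ D : ℝ, |D| < Real.pi ∧ Complex.exp (D * Complex.I) = (-(q' / ‖q'‖)) / (q / ‖q‖) ∧
      Tendsto (fun x => (F (x, Real.pi / 2)).im - (F (x, 0)).im) l (𝓝 D) := by
  have hpi := Real.pi_pos
  have nq : 0 < ‖q‖ := norm_pos_iff.2 hq
  have nq' : 0 < ‖q'‖ := norm_pos_iff.2 hq'
  set u : ℂ := (starRingEnd ℂ) (q / ‖q‖ - q' / ‖q'‖) with hu
  -- positivity of the two real parts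
  have hn1 : ‖q / ‖q‖‖ = 1 := by
    rw [norm_div, Complex.norm_real, norm_norm, div_self nq.ne']
  have hn2 : ‖q' / ‖q'‖‖ = 1 := by
    rw [norm_div, Complex.norm_real, norm_norm, div_self nq'.ne']
  set a : ℂ := q / ‖q‖ with ha
  set b : ℂ := q' / ‖q'‖ with hb
  have hab : ‖a - b‖ ≠ 0 := by
    rw [norm_ne_zero_iff, sub_ne_zero]
    exact hqq
  have hre : ∀ z : ℂ, ((starRingEnd ℂ) z).re = z.re := fun z => rfl
  have hsqa : a.re * a.re + a.im * a.im = 1 := by
    have h1 := Complex.normSq_apply a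
    rw [Complex.normSq_eq_norm_sq, hn1] at h1
    linarith
  have hsqb : b.re * b.re + b.im * b.im = 1 := by
    have h1 := Complex.normSq_apply b
    rw [Complex.normSq_eq_norm_sq, hn2] at h1
    linarith
  have hsqab : 0 < (a.re - b.re) * (a.re - b.re) + (a.im - b.im) * (a.im - b.im) := by
    have h1 := Complex.normSq_apply (a - b)
    rw [Complex.normSq_eq_norm_sq, Complex.sub_re, Complex.sub_im] at h1
    have h2 : 0 < ‖a - b‖ ^ 2 := by positivity
    linarith
  set c0 : ℝ := 1 - (a.re * b.re + a.im * b.im) with hc0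
  have hc0p : 0 < c0 := by nlinarith
  have hua : (u * a).re = c0 := by
    rw [hu, Complex.mul_re, Complex.conj_re, Complex.conj_im, Complex.sub_re, Complex.sub_im]
    nlinarith
  have hub : (u * (-b)).re = c0 := by
    rw [hu, Complex.mul_re, Complex.conj_re, Complex.conj_im, Complex.sub_re, Complex.sub_im,
      Complex.neg_re, Complex.neg_im]
    nlinarith
  have eq1 : q = ‖q‖ * a := by
    rw [ha]
    have : (‖q‖ : ℂ) ≠ 0 := by simpa using hq
    field_simp
  have eq2 : q' = ‖q'‖ * b := by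
    rw [hb]
    have : (‖q'‖ : ℂ) ≠ 0 := by simpa using hq'
    field_simp
  have huq : (u * q).re = ‖q‖ * c0 := by
    rw [eq1, show u * (‖q‖ * a) = ‖q‖ * (u * a) by ring, Complex.re_ofReal_mul, hua, ← eq1]
  have huq' : (u * (-q')).re = ‖q'‖ * c0 := by
    rw [eq2, show u * (-(‖q'‖ * b)) = ‖q'‖ * (u * (-b)) by ring, Complex.re_ofReal_mul, hub, ← eq2]
  have hu0 : u ≠ 0 := by
    intro h0
    rw [h0, zero_mul, Complex.zero_re] at hua
    linarith
  have nu : 0 < ‖u‖ := norm_pos_iff.2 hu0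
  set m : ℝ := min ‖q‖ ‖q'‖ * c0 with hm
  have hmp : 0 < m := mul_pos (lt_min nq nq') hc0p
  set ε : ℝ := m / (4 * ‖u‖) with hε
  have hεp : 0 < ε := by positivity
  -- the path near the end is in the half plane
  have hpos : ∀ᶠ x in l, ∀ φ ∈ Icc (0 : ℝ) (Real.pi / 2),
      0 < (u * (r (Real.exp x * Real.cos φ) - r' (Real.exp x * Real.sin φ))).re := by
    filter_upwards [h ε hεp, h' ε hεp] with x hx hx' φ hφ
    have hex := Real.exp_pos x
    have hc : 0 ≤ Real.cos φ := Real.cos_nonneg_of_mem_Icc ⟨by linarith [hφ.1], hφ.2⟩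
    have hs : 0 ≤ Real.sin φ := Real.sin_nonneg_of_mem_Icc ⟨hφ.1, by linarith [hφ.2]⟩
    have h1 := hx (Real.exp x * Real.cos φ) (by positivity)
      (mul_le_of_le_one_right hex.le (Real.cos_le_one φ))
    have h2 := hx' (Real.exp x * Real.sin φ) (by positivity)
      (mul_le_of_le_one_right hex.le (Real.sin_le_one φ))
    have e1 : u * (r (Real.exp x * Real.cos φ) - r' (Real.exp x * Real.sin φ)) =
        ((Real.exp x * Real.cos φ : ℝ) : ℂ) * (u * q) +
        ((Real.exp x * Real.sin φ : ℝ) : ℂ) * (u * (-q')) +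
        u * ((r (Real.exp x * Real.cos φ) - ((Real.exp x * Real.cos φ : ℝ) : ℂ) * q) -
          (r' (Real.exp x * Real.sin φ) - ((Real.exp x * Real.sin φ : ℝ) : ℂ) * q')) := by ring
    rw [e1, Complex.add_re, Complex.add_re, Complex.re_ofReal_mul, Complex.re_ofReal_mul, huq, huq']
    have h3 : ‖u * ((r (Real.exp x * Real.cos φ) - ((Real.exp x * Real.cos φ : ℝ) : ℂ) * q) -
          (r' (Real.exp x * Real.sin φ) - ((Real.exp x * Real.sin φ : ℝ) : ℂ) * q'))‖ ≤
        ‖u‖ * (2 * (ε * Real.exp x)) := by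
      rw [norm_mul]
      refine mul_le_mul_of_nonneg_left ?_ nu.le
      refine (norm_sub_le _ _).trans ?_
      linarith
    have h4 : ‖u‖ * (2 * (ε * Real.exp x)) = m / 2 * Real.exp x := by
      rw [hε]
      field_simp
      ring
    have h5 := (Complex.abs_re_le_norm _).trans (h3.trans_eq h4)
    have h6 := (abs_le.1 h5).1
    have h7 : 1 ≤ Real.cos φ + Real.sin φ := by
      have := Real.sin_sq_add_cos_sq φ
      nlinarith [Real.cos_le_one φ, Real.sin_le_one φ]
    have h8 : m ≤ ‖q‖ * c0 := mul_le_mul_of_nonneg_right (min_le_left _ _) hc0p.le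
    have h9 : m ≤ ‖q'‖ * c0 := mul_le_mul_of_nonneg_right (min_le_right _ _) hc0p.le
    have h10 : m * Real.exp x ≤ Real.exp x * Real.cos φ * (‖q‖ * c0) +
        Real.exp x * Real.sin φ * (‖q'‖ * c0) := by
      have g1 : Real.exp x * Real.cos φ * m ≤ Real.exp x * Real.cos φ * (‖q‖ * c0) :=
        mul_le_mul_of_nonneg_left h8 (by positivity)
      have g2 : Real.exp x * Real.sin φ * m ≤ Real.exp x * Real.sin φ * (‖q'‖ * c0) :=
        mul_le_mul_of_nonneg_left h9 (by positivity)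
      have g3 : m * Real.exp x ≤ m * Real.exp x * (Real.cos φ + Real.sin φ) :=
        le_mul_of_one_le_right (by positivity) h7
      nlinarith
    have h11 : 0 < m * Real.exp x := by positivity
    linarith
  have hdiff : ∀ᶠ x in l, (F (x, Real.pi / 2)).im - (F (x, 0)).im =
      (u * (-r' (Real.exp x))).arg - (u * r (Real.exp x)).arg := by
    filter_upwards [hpos] with x hx
    have h1 := half_plane (a := 0) (b := Real.pi / 2) (by positivity)
      (P := fun φ => r (Real.exp x * Real.cos φ) - r' (Real.exp x * Real.sin φ))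
      (F := fun φ => F (x, φ)) (by fun_prop) (by fun_prop) (fun φ hφ => by
        rw [hFe]
        simp only
        rw [clip_of hφ.1 hφ.2]) (u := u) hx
    rw [h1, Real.cos_pi_div_two, Real.sin_pi_div_two, Real.cos_zero, Real.sin_zero, mul_zero,
      mul_one, hr0, hr0', zero_sub, sub_zero]
  -- limits
  have hposq : 0 < (u * a).re := by rw [hua]; exact hc0p
  have hposb : 0 < (u * (-b)).re := by rw [hub]; exact hc0p
  refine ⟨(u * (-b)).arg - (u * a).arg, ?_, ?_, ?_⟩
  · have h1 := abs_arg_lt hposq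
    have h2 := abs_arg_lt hposb
    rw [abs_lt] at h1 h2 ⊢
    constructor <;> linarith [h1.1, h1.2, h2.1, h2.2]
  · have e1 := exp_arg_div (z := u * a) (fun h0 => by rw [h0] at hposq; simp at hposq)
    have e2 := exp_arg_div (z := u * (-b)) (fun h0 => by rw [h0] at hposb; simp at hposb)
    push_cast
    rw [sub_mul, Complex.exp_sub, e1, e2, norm_mul, norm_mul, norm_neg, hn1, hn2]
    have n1 : (‖u‖ : ℂ) ≠ 0 := by simpa using hu0
    have n2 : a ≠ 0 := by
      intro h0
      rw [h0, norm_zero] at hn1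
      exact zero_ne_one hn1
    push_cast
    field_simp
  · have hl1 : Tendsto (fun x => (u * (-(r' (Real.exp x) / ‖r' (Real.exp x)‖))).arg -
        (u * (r (Real.exp x) / ‖r (Real.exp x)‖)).arg) l (𝓝 ((u * (-b)).arg - (u * a).arg)) := by
      have g1 := h.lim_dir hq
      have g2 := h'.lim_dir hq'
      refine Tendsto.sub ?_ ?_
      · exact (Complex.continuousAt_arg (Or.inl hposb)).tendsto.comp (g2.neg.const_mul u)
      · exact (Complex.continuousAt_arg (Or.inl hposq)).tendsto.comp (g1.const_mul u)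
    refine hl1.congr' ?_
    filter_upwards [hdiff, hpos] with x hx hx2
    rw [hx]
    have p1 := hx2 0 ⟨le_rfl, by positivity⟩
    have p2 := hx2 (Real.pi / 2) ⟨by positivity, le_rfl⟩
    rw [Real.cos_zero, Real.sin_zero, mul_one, mul_zero, hr0', sub_zero] at p1
    rw [Real.cos_pi_div_two, Real.sin_pi_div_two, mul_one, mul_zero, hr0, zero_sub] at p2
    have r1 : r (Real.exp x) ≠ 0 := by
      intro h0
      rw [h0] at p1
      simp at p1
    have r2 : r' (Real.exp x) ≠ 0 := by
      intro h0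
      rw [h0] at p2
      simp at p2
    have k1 : (u * (r (Real.exp x) / ‖r (Real.exp x)‖)).arg = (u * r (Real.exp x)).arg := by
      have : u * (r (Real.exp x) / ‖r (Real.exp x)‖) =
          ((‖r (Real.exp x)‖⁻¹ : ℝ) : ℂ) * (u * r (Real.exp x)) := by
        push_cast
        ring
      rw [this, Complex.arg_real_mul _ (by positivity)]
    have k2 : (u * (-(r' (Real.exp x) / ‖r' (Real.exp x)‖))).arg =
        (u * (-r' (Real.exp x))).arg := by
      have : u * (-(r' (Real.exp x) / ‖r' (Real.exp x)‖)) =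
          ((‖r' (Real.exp x)‖⁻¹ : ℝ) : ℂ) * (u * (-r' (Real.exp x))) := by
        push_cast
        ring
      rw [this, Complex.arg_real_mul _ (by positivity)]
    rw [k1, k2]

/-- (O2) The order of two disjoint rays. -/
theorem two_rays {r r' : ℝ → ℂ} {V p V' p' : ℂ} (h : Ray r V p) (h' : Ray r' V' p')
    (hdis : ∀ t > 0, ∀ t' > 0, r t ≠ r' t') (hVV : V / ‖V‖ ≠ V' / ‖V'‖) {A A' : ℝ → ℝ}
    {θ s θ' s' : ℝ} (hA : RArg r V p A θ s) (hA' : RArg r' V' p' A' θ' s') (h1 : θ < θ')
    (h2 : θ' < θ + Real.pi) : s < s' ∧ s' < s + 2 * Real.pi := by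
  have hpi := Real.pi_pos
  -- the function of two variables and its logarithm
  have hG0 : ∀ z : ℝ × ℝ, r (Real.exp z.1 * Real.cos (clip z.2)) -
      r' (Real.exp z.1 * Real.sin (clip z.2)) ≠ 0 := by
    intro z h0
    rw [sub_eq_zero] at h0
    have hc := clip_mem z.2
    have hex := Real.exp_pos z.1
    rcases hc.1.eq_or_lt with hz | hz
    · rw [← hz, Real.cos_zero, Real.sin_zero, mul_one, mul_zero, h'.zero] at h0
      exact h.ne _ hex h0
    · rcases hc.2.eq_or_lt with hz2 | hz2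
      · rw [hz2, Real.cos_pi_div_two, Real.sin_pi_div_two, mul_one, mul_zero, h.zero] at h0
        exact h'.ne _ hex h0.symm
      · exact hdis _ (mul_pos hex (Real.cos_pos_of_mem_Ioo ⟨by linarith, hz2⟩)) _
          (mul_pos hex (Real.sin_pos_of_pos_of_lt_pi hz (by linarith))) h0
  obtain ⟨F, hF, hFe⟩ := exists_log_two (f := fun z : ℝ × ℝ =>
    r (Real.exp z.1 * Real.cos (clip z.2)) - r' (Real.exp z.1 * Real.sin (clip z.2))) (by
      have e1 := h.cont
      have e2 := h'.cont
      have e3 := clip_cont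
      fun_prop) hG0
  have hθθ : p / ‖p‖ ≠ p' / ‖p'‖ := by
    rw [eq_dir h.p0 hA.dp, eq_dir h'.p0 hA'.dp]
    intro h0
    obtain ⟨n, hn⟩ := exp_two_pi h0
    have h3 : (n : ℝ) * (2 * Real.pi) < 0 := by linarith
    have h4 : -(2 * Real.pi) < (n : ℝ) * (2 * Real.pi) := by linarith
    have h5 : (n : ℝ) < 0 := by
      by_contra hc
      push Not at hc
      nlinarith
    have h6 : (-1 : ℝ) < n := by
      by_contra hc
      push Not at hc
      nlinarith
    have h7 : n < 0 := by exact_mod_cast h5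
    have h8 : -1 < n := by exact_mod_cast h6
    omega
  obtain ⟨D, hD, hDe, hDt⟩ := end_diff h.cont h'.cont h.top h'.top h.zero h'.zero h.p0 h'.p0 hθθ hF
    hFe
  obtain ⟨D', hD', hDe', hDt'⟩ := end_diff h.cont h'.cont h.bot h'.bot h.zero h'.zero h.V0 h'.V0 hVV
    hF hFe
  -- the boundary values
  have hb0 : ∀ x, ∃ n : ℤ, (F (x, 0)).im - A x = n * (2 * Real.pi) := by
    intro x
    refine exp_two_pi ?_
    have e1 : Complex.exp (F (x, 0)) = r (Real.exp x) := by
      rw [hFe]
      simp only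
      rw [clip_of le_rfl (by positivity), Real.cos_zero, Real.sin_zero, mul_one, mul_zero, h'.zero,
        sub_zero]
    rw [exp_im_div e1, eq_dir (h.ne _ (Real.exp_pos x)) (hA.eq x)]
  have hb1 : ∀ x, ∃ n : ℤ, (F (x, Real.pi / 2)).im - (A' x + Real.pi) = n * (2 * Real.pi) := by
    intro x
    refine exp_two_pi ?_
    have e1 : Complex.exp (F (x, Real.pi / 2)) = -r' (Real.exp x) := by
      rw [hFe]
      simp only
      rw [clip_of (by positivity) le_rfl, Real.cos_pi_div_two, Real.sin_pi_div_two, mul_one,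
        mul_zero, h.zero, zero_sub]
    rw [exp_im_div e1, norm_neg, neg_div, eq_dir (h'.ne _ (Real.exp_pos x)) (hA'.eq x)]
    push_cast
    rw [add_mul, Complex.exp_add, Complex.exp_pi_mul_I]
    ring
  have hc0 : ∀ x, (F (x, 0)).im - A x = (F (0, 0)).im - A 0 := fun x =>
    const_of_two_pi (f := fun x => (F (x, 0)).im - A x) (by
      have := hA.cont
      fun_prop) hb0 x 0
  have hc1 : ∀ x, (F (x, Real.pi / 2)).im - (A' x + Real.pi) =
      (F (0, Real.pi / 2)).im - (A' 0 + Real.pi) := fun x =>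
    const_of_two_pi (f := fun x => (F (x, Real.pi / 2)).im - (A' x + Real.pi)) (by
      have := hA'.cont
      fun_prop) hb1 x 0
  obtain ⟨n0, hn0⟩ := hb0 0
  obtain ⟨n1, hn1⟩ := hb1 0
  have hform : ∀ x, (F (x, Real.pi / 2)).im - (F (x, 0)).im =
      A' x - A x + (Real.pi + (n1 - n0) * (2 * Real.pi)) := by
    intro x
    have a1 := hc0 x
    have a2 := hc1 x
    rw [hn0] at a1
    rw [hn1] at a2
    linarith
  have ht1 : D = θ' - θ + (Real.pi + (n1 - n0) * (2 * Real.pi)) := by
    refine tendsto_nhds_unique hDt ?_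
    simp only [hform]
    exact (hA'.top.sub hA.top).add_const _
  have ht2 : D' = s' - s + (Real.pi + (n1 - n0) * (2 * Real.pi)) := by
    refine tendsto_nhds_unique hDt' ?_
    simp only [hform]
    exact (hA'.bot.sub hA.bot).add_const _
  rw [abs_lt] at hD hD'
  have h3 : (n1 : ℝ) - n0 < 0 := by
    by_contra hc
    push Not at hc
    nlinarith
  have h4 : (-2 : ℝ) < n1 - n0 := by
    by_contra hc
    push Not at hc
    nlinarith
  have h5 : n1 - n0 < 0 := by exact_mod_cast h3
  have h6 : -2 < n1 - n0 := by exact_mod_cast h4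
  have h7 : n1 - n0 = -1 := by omega
  have h8 : (n1 : ℝ) - n0 = -1 := by exact_mod_cast h7
  rw [h8] at ht2
  constructor <;> linarith [hD'.1, hD'.2]

end Pool.Agent.DO
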