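import Pool.Agent.DO.OOrd
import Pool.Agent.DO.OPsi

/-!
# MP_74f563_an, n = 2 autonomous (D2), block O, file DO/OMain: density of the initial directions
-/

set_option autoImplicit false

namespace Pool.Agent.DO

open Set Filter Topology

/-- the complex number of an integer vector -/
noncomputable def kc (k : ℤ × ℤ) : ℂ := (k.1 : ℂ) + (k.2 : ℂ) * Complex.I

/-- `q` is in the strip of width `4` around the ray of direction `om`, at height `≥ N`. -/
def NearRay (om N : ℝ) (q : ℂ) : Prop :=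
  N ≤ (q * Complex.exp (-(om * Complex.I))).re ∧ |(q * Complex.exp (-(om * Complex.I))).im| ≤ 2

/-- The data: for every primitive `k` the curve `r k` (initial velocity `V k`, period `P k`). -/
structure OD (V : ℤ × ℤ → ℂ) (P : ℤ × ℤ → ℝ) (r : ℤ × ℤ → ℝ → ℂ) : Prop where
  cont : ∀ k : ℤ × ℤ, IsCoprime k.1 k.2 → Continuous (r k)
  zero : ∀ k : ℤ × ℤ, IsCoprime k.1 k.2 → r k 0 = 0
  ne : ∀ k : ℤ × ℤ, IsCoprime k.1 k.2 → ∀ t > 0, r k t ≠ 0
  der : ∀ k : ℤ × ℤ, IsCoprime k.1 k.2 → HasDerivAt (r k) (V k) 0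
  low : ∃ c > 0, ∀ k : ℤ × ℤ, IsCoprime k.1 k.2 → c ≤ ‖V k‖
  Pp : ∀ k : ℤ × ℤ, IsCoprime k.1 k.2 → 0 < P k
  bd : ∀ k : ℤ × ℤ, IsCoprime k.1 k.2 → ∃ C, ∀ t ≥ 0, ‖r k t - t * (kc k / P k)‖ ≤ C
  dis : ∀ k k' : ℤ × ℤ, IsCoprime k.1 k.2 → IsCoprime k'.1 k'.2 → k ≠ k' → ∀ t > 0, ∀ t' > 0,
    r k t ≠ r k' t'
  dir : ∀ k k' : ℤ × ℤ, IsCoprime k.1 k.2 → IsCoprime k'.1 k'.2 → k ≠ k' →
    V k / ‖V k‖ ≠ V k' / ‖V k'‖
  close : ∀ om : ℝ, ∀ δ > 0, ∃ N : ℝ, ∀ (k k' : ℤ × ℤ) (n n' : ℕ), IsCoprime k.1 k.2 →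
    IsCoprime k'.1 k'.2 → 0 < n → 0 < n' → NearRay om N (n * kc k) → NearRay om N (n' * kc k') →
    ‖V k - V k'‖ < δ

theorem kc_ne {k : ℤ × ℤ} (hk : IsCoprime k.1 k.2) : kc k ≠ 0 := by
  intro h
  have h1 : (kc k).re = k.1 := by simp [kc]
  have h2 : (kc k).im = k.2 := by simp [kc]
  rw [h] at h1 h2
  have h3 : (k.1 : ℝ) = 0 := h1.symm
  have h4 : (k.2 : ℝ) = 0 := h2.symm
  have h5 : k.1 = 0 := by exact_mod_cast h3
  have h6 : k.2 = 0 := by exact_mod_cast h4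
  rw [h5, h6] at hk
  exact not_isCoprime_zero_zero hk

/-- every nonzero integer vector is a positive multiple of a primitive one -/
theorem exists_prim (q : ℤ × ℤ) (hq : q ≠ 0) : ∃ (n : ℕ) (k : ℤ × ℤ), 0 < n ∧
    IsCoprime k.1 k.2 ∧ q = ((n : ℤ) * k.1, (n : ℤ) * k.2) := by
  have hg : 0 < Int.gcd q.1 q.2 := by
    rw [Int.gcd_pos_iff]
    by_contra h
    push Not at h
    exact hq (Prod.ext h.1 h.2)
  refine ⟨Int.gcd q.1 q.2, (q.1 / Int.gcd q.1 q.2, q.2 / Int.gcd q.1 q.2), hg, ?_, ?_⟩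
  · rw [Int.isCoprime_iff_gcd_eq_one]
    exact Int.gcd_ediv_gcd_ediv_gcd hg
  · ext
    · exact (Int.mul_ediv_cancel' (Int.gcd_dvd_left ..)).symm
    · exact (Int.mul_ediv_cancel' (Int.gcd_dvd_right ..)).symm

/-- an integer vector near a given point -/
theorem exists_near (z : ℂ) : ∃ q : ℤ × ℤ, ‖kc q - z‖ < 1 := by
  refine ⟨(round z.re, round z.im), ?_⟩
  have h1 := abs_sub_round z.re
  have h2 := abs_sub_round z.im
  have e1 : (kc (round z.re, round z.im) - z).re = -(z.re - round z.re) := by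
    simp [kc]
  have e2 : (kc (round z.re, round z.im) - z).im = -(z.im - round z.im) := by
    simp [kc]
  have h3 : ‖kc (round z.re, round z.im) - z‖ ^ 2 < 1 := by
    rw [← Complex.normSq_eq_norm_sq, Complex.normSq_apply, e1, e2]
    rw [abs_le] at h1 h2
    nlinarith [h1.1, h1.2, h2.1, h2.2]
  have h4 := norm_nonneg (kc (round z.re, round z.im) - z)
  nlinarith

/-- (V) A ray for every primitive vector. -/
theorem OD.ray {V : ℤ × ℤ → ℂ} {P : ℤ × ℤ → ℝ} {r : ℤ × ℤ → ℝ → ℂ} (h : OD V P r) {k : ℤ × ℤ}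
    (hk : IsCoprime k.1 k.2) : Ray (r k) (V k) (kc k / P k) where
  cont := h.cont k hk
  zero := h.zero k hk
  ne := h.ne k hk
  V0 := by
    obtain ⟨c, hc, h1⟩ := h.low
    exact norm_pos_iff.1 (hc.trans_le (h1 k hk))
  p0 := div_ne_zero (kc_ne hk) (by
    rw [Complex.ofReal_ne_zero]
    exact (h.Pp k hk).ne')
  bot := by
    intro ε hε
    have h1 := (h.der k hk).isLittleO.def hε
    rw [Metric.eventually_nhds_iff] at h1
    obtain ⟨δ, hδ, h2⟩ := h1
    have h3 : ∀ᶠ x in atBot, Real.exp x < δ := Real.tendsto_exp_atBot.eventually_lt_const hδ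
    filter_upwards [h3] with x hx t ht0 ht
    have h4 := h2 (y := t) (by
      rw [dist_zero_right, Real.norm_eq_abs, abs_of_nonneg ht0]
      linarith)
    rw [h.zero k hk, sub_zero, sub_zero, Real.norm_eq_abs, abs_of_nonneg ht0] at h4
    rw [← Complex.real_smul]
    exact h4.trans (mul_le_mul_of_nonneg_left ht hε.le)
  top := by
    intro ε hε
    obtain ⟨C, hC⟩ := h.bd k hk
    have h3 : ∀ᶠ x in atTop, C / ε < Real.exp x := Real.tendsto_exp_atTop.eventually_gt_atTop _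
    filter_upwards [h3] with x hx t ht0 ht
    rw [div_lt_iff₀ hε] at hx
    have := hC t ht0
    linarith

/-- the relation of the lifts -/
def PsiR (V : ℤ × ℤ → ℂ) (P : ℤ × ℤ → ℝ) (r : ℤ × ℤ → ℝ → ℂ) : Set (ℝ × ℝ) :=
  {z | ∃ (k : ℤ × ℤ) (A : ℝ → ℝ), IsCoprime k.1 k.2 ∧ RArg (r k) (V k) (kc k / P k) A z.1 z.2}

theorem arg_small {w : ℂ} {N : ℝ} (hN : 0 < N) (h1 : N ≤ w.re) (h2 : |w.im| ≤ 2) :
    |w.arg| ≤ Real.pi / N := by
  have hpi := Real.pi_pos
  have key : ∀ w : ℂ, N ≤ w.re → 0 ≤ w.im → w.im ≤ 2 → 0 ≤ w.arg ∧ w.arg ≤ Real.pi / N := by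
    intro w h1 h3 h4
    have hre : 0 < w.re := hN.trans_le h1
    have h0 : 0 ≤ w.arg := Complex.arg_nonneg_iff.2 h3
    have h5 := abs_arg_lt hre
    rw [abs_of_nonneg h0] at h5
    have h6 := Real.mul_le_sin h0 h5.le
    have hw : w ≠ 0 := by
      intro h
      rw [h] at hre
      simp at hre
    rw [Complex.sin_arg] at h6
    have h7 : N ≤ ‖w‖ := h1.trans ((le_abs_self _).trans (Complex.abs_re_le_norm w))
    have h8 : w.im / ‖w‖ ≤ 2 / N := div_le_div₀ (by norm_num) h4 hN h7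
    have h9 : 2 / Real.pi * w.arg ≤ 2 / N := h6.trans h8
    refine ⟨h0, ?_⟩
    have h10 : 2 / Real.pi * w.arg * (Real.pi / 2) ≤ 2 / N * (Real.pi / 2) :=
      mul_le_mul_of_nonneg_right h9 (by positivity)
    have e1 : 2 / Real.pi * w.arg * (Real.pi / 2) = w.arg := by
      field_simp
    have e2 : 2 / N * (Real.pi / 2) = Real.pi / N := by
      field_simp
    rw [e1, e2] at h10
    exact h10
  rw [abs_le] at h2
  rcases le_total 0 w.im with h3 | h3
  · have := key w h1 h3 h2.2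
    rw [abs_of_nonneg this.1]
    exact this.2
  · have h4 := key ((starRingEnd ℂ) w) (by rw [Complex.conj_re]; exact h1) (by
      rw [Complex.conj_im]
      linarith) (by
      rw [Complex.conj_im]
      linarith)
    have hre : 0 < w.re := hN.trans_le h1
    have h5 := abs_arg_lt hre
    have h6 : ((starRingEnd ℂ) w).arg = -w.arg := by
      rw [Complex.arg_conj, if_neg]
      intro h
      rw [h, abs_of_pos hpi] at h5
      linarith
    rw [h6] at h4
    rw [abs_of_nonpos (by linarith [h4.1])]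
    exact h4.2

/-- near the ray `om`, on the given side -/
theorem OD.exists_pt {V : ℤ × ℤ → ℂ} {P : ℤ × ℤ → ℝ} {r : ℤ × ℤ → ℝ → ℂ} (h : OD V P r)
    (om N : ℝ) {σ : ℝ} (hσ : σ = 1 ∨ σ = -1) {δ : ℝ} (hδ : 0 < δ) :
    ∃ (k : ℤ × ℤ) (n : ℕ) (θ s : ℝ) (A : ℝ → ℝ), IsCoprime k.1 k.2 ∧ 0 < n ∧
      NearRay om N (n * kc k) ∧ RArg (r k) (V k) (kc k / P k) A θ s ∧ 0 < σ * (θ - om) ∧
      σ * (θ - om) < δ := by
  have hpi := Real.pi_pos
  set M : ℝ := max (max N 1) (2 * Real.pi / δ) with hM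
  have hM1 : N ≤ M := (le_max_left _ _).trans (le_max_left _ _)
  have hM2 : 1 ≤ M := (le_max_right _ _).trans (le_max_left _ _)
  have hM3 : 2 * Real.pi / δ ≤ M := le_max_right _ _
  obtain ⟨q, hq⟩ := exists_near ((((M + 1 : ℝ) : ℂ) + (σ : ℂ) * Complex.I) *
    Complex.exp (om * Complex.I))
  set w : ℂ := kc q * Complex.exp (-(om * Complex.I)) with hw
  have hw1 : ‖w - (((M + 1 : ℝ) : ℂ) + (σ : ℂ) * Complex.I)‖ < 1 := by
    have e1 : w - (((M + 1 : ℝ) : ℂ) + (σ : ℂ) * Complex.I) =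
        (kc q - (((M + 1 : ℝ) : ℂ) + (σ : ℂ) * Complex.I) * Complex.exp (om * Complex.I)) *
        Complex.exp (-(om * Complex.I)) := by
      rw [hw, sub_mul, mul_assoc, ← Complex.exp_add, add_neg_cancel, Complex.exp_zero, mul_one]
    have e2 : ‖Complex.exp (-(om * Complex.I))‖ = 1 := by
      have := Complex.norm_exp_ofReal_mul_I (-om)
      rw [← this]
      congr 2
      push_cast
      ring
    rw [e1, norm_mul, e2, mul_one]
    exact hq
  have hre := (Complex.abs_re_le_norm _).trans_lt hw1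
  have him := (Complex.abs_im_le_norm _).trans_lt hw1
  rw [Complex.sub_re, Complex.add_re, Complex.ofReal_re, Complex.re_ofReal_mul, Complex.I_re,
    mul_zero, add_zero, abs_lt] at hre
  rw [Complex.sub_im, Complex.add_im, Complex.ofReal_im, Complex.im_ofReal_mul, Complex.I_im,
    mul_one, zero_add, abs_lt] at him
  have hwre : M < w.re := by linarith [hre.1]
  have hσim : 0 < σ * w.im ∧ σ * w.im < 2 := by
    rcases hσ with rfl | rfl
    · constructor <;> linarith [him.1, him.2]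
    · constructor <;> linarith [him.1, him.2]
  have hwim : |w.im| ≤ 2 := by
    rw [abs_le]
    rcases hσ with rfl | rfl
    · constructor <;> linarith [him.1, him.2]
    · constructor <;> linarith [him.1, him.2]
  have hq0 : q ≠ 0 := by
    rintro rfl
    have : w = 0 := by simp [hw, kc]
    rw [this, Complex.zero_re] at hwre
    linarith
  obtain ⟨n, k, hn, hk, hqk⟩ := exists_prim q hq0
  have hkq : kc q = n * kc k := by
    rw [hqk]
    simp only [kc]
    push_cast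
    ring
  have hMp : 0 < M := by linarith
  have harg := arg_small hMp hwre.le hwim
  have hdir : kc k / P k = ‖kc k / P k‖ * Complex.exp (((om + w.arg : ℝ) : ℂ) * Complex.I) := by
    have hPk := h.Pp k hk
    have nP : (P k : ℂ) ≠ 0 := by
      rw [Complex.ofReal_ne_zero]
      exact hPk.ne'
    have nn : (n : ℂ) ≠ 0 := by
      exact_mod_cast hn.ne'
    have e3 : w = ‖w‖ * Complex.exp (w.arg * Complex.I) := (Complex.norm_mul_exp_arg_mul_I w).symm
    have e4 : kc q = w * Complex.exp (om * Complex.I) := by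
      rw [hw, mul_assoc, ← Complex.exp_add, neg_add_cancel, Complex.exp_zero, mul_one]
    have e5 : ‖w‖ = n * ‖kc k‖ := by
      have e6 : ‖kc q‖ = ‖w‖ := by
        rw [e4, norm_mul, Complex.norm_exp_ofReal_mul_I, mul_one]
      rw [← e6, hkq, norm_mul, Complex.norm_natCast]
    have e7 : kc k = ‖kc k‖ * Complex.exp (((om + w.arg : ℝ) : ℂ) * Complex.I) := by
      have e8 : (n : ℂ) * kc k =
          n * (‖kc k‖ * Complex.exp (((om + w.arg : ℝ) : ℂ) * Complex.I)) := by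
        rw [← hkq, e4]
        nth_rewrite 1 [e3]
        rw [e5]
        push_cast
        rw [add_mul, Complex.exp_add]
        ring
      exact mul_left_cancel₀ nn e8
    rw [norm_div, Complex.norm_real, Real.norm_eq_abs, abs_of_pos hPk]
    nth_rewrite 1 [e7]
    push_cast
    ring
  obtain ⟨A, s, hA⟩ := (h.ray hk).exists_arg hdir
  refine ⟨k, n, om + w.arg, s, A, hk, hn, ⟨?_, ?_⟩, hA, ?_, ?_⟩
  · rw [← hkq]
    exact hM1.trans hwre.le
  · rw [← hkq]
    exact hwim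
  · rw [add_sub_cancel_left]
    rcases hσ with rfl | rfl
    · rw [one_mul] at hσim ⊢
      have g1 : 0 ≤ w.arg := Complex.arg_nonneg_iff.2 hσim.1.le
      rcases g1.eq_or_lt with g2 | g2
      · exfalso
        rw [eq_comm, Complex.arg_eq_zero_iff] at g2
        linarith [hσim.1, g2.2]
      · exact g2
    · have g1 : w.arg < 0 := Complex.arg_neg_iff.2 (by linarith [hσim.1])
      linarith
  · rw [add_sub_cancel_left]
    have g1 : Real.pi / M ≤ δ / 2 := by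
      rw [div_le_iff₀ hδ] at hM3
      rw [div_le_iff₀ hMp]
      linarith
    have g2 : σ * w.arg ≤ |w.arg| := by
      rcases hσ with rfl | rfl
      · rw [one_mul]; exact le_abs_self _
      · rw [neg_one_mul]; exact neg_le_abs _
    linarith

theorem exp_dist (a b : ℝ) :
    ‖Complex.exp (a * Complex.I) - Complex.exp (b * Complex.I)‖ ≤ |a - b| := by
  have e1 : Complex.exp (a * Complex.I) - Complex.exp (b * Complex.I) =
      Complex.exp (b * Complex.I) * (Complex.exp (Complex.I * ((a - b : ℝ) : ℂ)) - 1) := by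
    rw [mul_sub, ← Complex.exp_add]
    push_cast
    ring_nf
  rw [e1, norm_mul, Complex.norm_exp_ofReal_mul_I, one_mul]
  exact Real.norm_exp_I_mul_ofReal_sub_one_le

theorem dir_dist {v v' : ℂ} {c : ℝ} (hc : 0 < c) (h1 : c ≤ ‖v‖) (h2 : c ≤ ‖v'‖) :
    ‖v / ‖v‖ - v' / ‖v'‖‖ ≤ 2 / c * ‖v - v'‖ := by
  have n1 : 0 < ‖v‖ := hc.trans_le h1
  have n2 : 0 < ‖v'‖ := hc.trans_le h2
  have e1 : v / ‖v‖ - v' / ‖v'‖ =
      (v - v') / ‖v‖ + v' * (((‖v'‖ - ‖v‖ : ℝ) : ℂ) / (‖v‖ * ‖v'‖)) := by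
    have m1 : (‖v‖ : ℂ) ≠ 0 := by exact_mod_cast n1.ne'
    have m2 : (‖v'‖ : ℂ) ≠ 0 := by exact_mod_cast n2.ne'
    push_cast
    field_simp
    ring
  rw [e1]
  refine (norm_add_le _ _).trans ?_
  rw [norm_div, norm_mul, norm_div, norm_mul, Complex.norm_real, Complex.norm_real,
    Complex.norm_real, norm_norm, norm_norm, Real.norm_eq_abs]
  have h3 : |‖v'‖ - ‖v‖| ≤ ‖v - v'‖ := by
    rw [abs_sub_comm]
    exact abs_norm_sub_norm_le v v'
  have h4 : ‖v'‖ * (|‖v'‖ - ‖v‖| / (‖v‖ * ‖v'‖)) = |‖v'‖ - ‖v‖| / ‖v‖ := by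
    field_simp
  rw [h4]
  have h5 : |‖v'‖ - ‖v‖| / ‖v‖ ≤ ‖v - v'‖ / c := div_le_div₀ (norm_nonneg _) h3 hc h1
  have h6 : ‖v - v'‖ / ‖v‖ ≤ ‖v - v'‖ / c := div_le_div₀ (norm_nonneg _) le_rfl hc h1
  calc ‖v - v'‖ / ‖v‖ + |‖v'‖ - ‖v‖| / ‖v‖ ≤ ‖v - v'‖ / c + ‖v - v'‖ / c := add_le_add h6 h5
    _ = 2 / c * ‖v - v'‖ := by ring

theorem OD.rel {V : ℤ × ℤ → ℂ} {P : ℤ × ℤ → ℝ} {r : ℤ × ℤ → ℝ → ℂ} (h : OD V P r) :
    Rel (PsiR V P r) := by
  have hpi := Real.pi_pos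
  have hclose : ∀ om : ℝ, ∀ δ > 0, ∃ p ∈ PsiR V P r, ∃ q ∈ PsiR V P r, om - δ < p.1 ∧ p.1 < om ∧
      om < q.1 ∧ q.1 < om + δ ∧
      ‖Complex.exp (p.2 * Complex.I) - Complex.exp (q.2 * Complex.I)‖ < δ := by
    intro om δ hδ
    obtain ⟨c, hc, hlow⟩ := h.low
    obtain ⟨N, hN⟩ := h.close om (δ * c / 4) (by positivity)
    obtain ⟨k, n, θ, s, A, hk, hn, hnr, hA, hs1, hs2⟩ := h.exists_pt om N (Or.inr rfl) hδ
    obtain ⟨k', n', θ', s', A', hk', hn', hnr', hA', hs1', hs2'⟩ :=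
      h.exists_pt om N (Or.inl rfl) hδ
    have h1 := hN k k' n n' hk hk' hn hn' hnr hnr'
    refine ⟨(θ, s), ⟨k, A, hk, hA⟩, (θ', s'), ⟨k', A', hk', hA'⟩, ?_, ?_, ?_, ?_, ?_⟩
    · show om - δ < θ
      linarith
    · show θ < om
      linarith
    · show om < θ'
      linarith
    · show θ' < om + δ
      linarith
    · show ‖Complex.exp (s * Complex.I) - Complex.exp (s' * Complex.I)‖ < δ
      rw [← eq_dir (h.ray hk).V0 hA.dV, ← eq_dir (h.ray hk').V0 hA'.dV]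
      refine (dir_dist hc (hlow k hk) (hlow k' hk')).trans_lt ?_
      calc 2 / c * ‖V k - V k'‖ ≤ 2 / c * (δ * c / 4) :=
            mul_le_mul_of_nonneg_left h1.le (by positivity)
        _ = δ / 2 := by
            field_simp
            norm_num
        _ < δ := by linarith
  refine ⟨?_, ?_, ?_, ?_, hclose⟩
  · rintro ⟨θ, s⟩ ⟨k, A, hk, hA⟩
    refine ⟨k, fun x => A x + (1 : ℤ) * (2 * Real.pi), hk, ?_⟩
    have := hA.shift 1
    simpa using this
  · rintro ⟨θ, s⟩ ⟨k, A, hk, hA⟩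
    refine ⟨k, fun x => A x + (-1 : ℤ) * (2 * Real.pi), hk, ?_⟩
    have := hA.shift (-1)
    have e : ∀ y : ℝ, y + ((-1 : ℤ) : ℝ) * (2 * Real.pi) = y - 2 * Real.pi := by
      intro y
      push_cast
      ring
    simp only [e] at this ⊢
    exact this
  · rintro ⟨θ, s⟩ ⟨k, A, hk, hA⟩ ⟨θ', s'⟩ ⟨k', A', hk', hA'⟩ h1 h2
    simp only at h1 h2 hA hA' ⊢
    by_cases hkk : k = k'
    · exfalso
      subst hkk
      have e1 := eq_dir (h.ray hk).p0 hA.dp
      have e2 := eq_dir (h.ray hk).p0 hA'.dp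
      rw [e1] at e2
      obtain ⟨n, hn⟩ := exp_two_pi e2
      have h3 : (n : ℝ) * (2 * Real.pi) < 0 := by linarith
      have h4 : -(2 * Real.pi) < (n : ℝ) * (2 * Real.pi) := by linarith
      have h5 : (n : ℝ) < 0 := by
        by_contra hc
        push Not at hc
        nlinarith
      have h6 : (-1 : ℝ) < n := by
        by_contra hc
        push Not at hc
        nlinarith
      have h7 : n < 0 := by exact_mod_cast h5
      have h8 : -1 < n := by exact_mod_cast h6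
      omega
    · exact two_rays (h.ray hk) (h.ray hk') (h.dis k k' hk hk' hkk) (h.dir k k' hk hk' hkk) hA hA'
        h1 h2
  · intro a b hab
    obtain ⟨p, hp, q, hq, h1, h2, -⟩ := hclose ((a + b) / 2) ((b - a) / 2) (by linarith)
    exact ⟨p, hp, by linarith, by linarith⟩

/-- **(O3)** The initial directions are dense. -/
theorem OD.dense {V : ℤ × ℤ → ℂ} {P : ℤ × ℤ → ℝ} {r : ℤ × ℤ → ℝ → ℂ} (h : OD V P r) {u : ℂ}
    (hu : ‖u‖ = 1) {ε : ℝ} (hε : 0 < ε) : ∃ k : ℤ × ℤ, IsCoprime k.1 k.2 ∧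
      ‖V k / ‖V k‖ - u‖ < ε := by
  have hu0 : u ≠ 0 := by
    intro h0
    rw [h0, norm_zero] at hu
    exact zero_ne_one hu
  obtain ⟨⟨θ, s⟩, ⟨k, A, hk, hA⟩, h1, h2⟩ := h.rel.dense_snd (α := u.arg - ε) (β := u.arg + ε)
    (by linarith)
  simp only at h1 h2 hA
  refine ⟨k, hk, ?_⟩
  rw [eq_dir (h.ray hk).V0 hA.dV]
  have e1 : u = Complex.exp (u.arg * Complex.I) := by
    rw [exp_arg_div hu0, hu]
    simp
  have e2 : ‖Complex.exp (s * Complex.I) - u‖ = ‖Complex.exp (s * Complex.I) -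
      Complex.exp (u.arg * Complex.I)‖ := by
    rw [← e1]
  rw [e2]
  refine (exp_dist _ _).trans_lt ?_
  rw [abs_lt]
  constructor <;> linarith

end Pool.Agent.DO
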