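import Mathlib

/-!
# MP_74f563_an, n = 2 autonomous (D2), block O, file DO/OLog: continuous logarithms and their
changes (Mathlib only)
-/

set_option autoImplicit false

namespace Pool.Agent.DO

open Set Filter Topology

/-- A continuous function without zeros has a continuous logarithm. -/
theorem exists_log {A : Type} [TopologicalSpace A] [SimplyConnectedSpace A]
    [LocallyPathConnectedSpace A] {f : A → ℂ} (hf : Continuous f) (h0 : ∀ a, f a ≠ 0) :
    ∃ F : A → ℂ, Continuous F ∧ ∀ a, Complex.exp (F a) = f a := by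
  obtain ⟨a₀⟩ : Nonempty A := inferInstance
  obtain ⟨F, hF, -⟩ := Complex.isCoveringMapOn_exp.existsUnique_continuousMap_lifts ⟨f, hf⟩
    (a₀ := a₀) (e₀ := Complex.log (f a₀)) (Complex.exp_log (h0 a₀)) (fun a => h0 a)
  exact ⟨F, F.continuous, fun a => congrFun hF.2 a⟩

/-- the product of an interval and a line -/
theorem exists_log_real {f : ℝ → ℂ} (hf : Continuous f) (h0 : ∀ a, f a ≠ 0) :
    ∃ F : ℝ → ℂ, Continuous F ∧ ∀ a, Complex.exp (F a) = f a := exists_log hf h0

theorem exists_log_two {f : ℝ × ℝ → ℂ} (hf : Continuous f) (h0 : ∀ a, f a ≠ 0) :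
    ∃ F : ℝ × ℝ → ℂ, Continuous F ∧ ∀ a, Complex.exp (F a) = f a := exists_log hf h0

/-- A continuous real function with values in `2π ℤ` is constant. -/
theorem const_of_two_pi {f : ℝ → ℝ} (hf : Continuous f)
    (h : ∀ x, ∃ n : ℤ, f x = n * (2 * Real.pi)) (a b : ℝ) : f a = f b := by
  have hpi := Real.pi_pos
  choose n hn using h
  have h1 : Continuous n := by
    rw [continuous_iff_continuousAt]
    intro x
    have h2 := hf.continuousAt (x := x)
    rw [Metric.continuousAt_iff] at h2
    obtain ⟨δ, hδ, h3⟩ := h2 Real.pi hpi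
    have h4 : n =ᶠ[𝓝 x] fun _ => n x := by
      filter_upwards [Metric.ball_mem_nhds x hδ] with y hy
      have h5 := h3 hy
      rw [hn, hn, Real.dist_eq, ← sub_mul, abs_mul,
        abs_of_pos (by positivity : (0 : ℝ) < 2 * Real.pi)] at h5
      have h6 : |((n y : ℝ) - n x)| < 1 := by
        by_contra hc
        push Not at hc
        nlinarith
      have h7 : |n y - n x| < 1 := by exact_mod_cast h6
      rw [Int.abs_lt_one_iff] at h7
      omega
    exact continuousAt_const.congr h4.symm
  have h2 : n a = n b := by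
    have h3 : (n '' univ).Subsingleton := (isPreconnected_univ.image n h1.continuousOn).subsingleton
    exact h3 ⟨a, mem_univ _, rfl⟩ ⟨b, mem_univ _, rfl⟩
  rw [hn, hn, h2]

/-- on an interval -/
theorem const_of_two_pi_Icc {f : ℝ → ℝ} {a b : ℝ} (hab : a ≤ b) (hf : ContinuousOn f (Icc a b))
    (h : ∀ x ∈ Icc a b, ∃ n : ℤ, f x = n * (2 * Real.pi)) : f a = f b := by
  have h1 : Continuous (fun x => f (projIcc a b hab x)) := by
    have h2 : Continuous fun x => ((projIcc a b hab x : Icc a b) : ℝ) :=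
      continuous_subtype_val.comp continuous_projIcc
    exact hf.comp_continuous h2 fun x => (projIcc a b hab x).2
  have h2 := const_of_two_pi h1 (fun x => h _ (projIcc a b hab x).2) a b
  simpa using h2

theorem exp_arg_div {z : ℂ} (hz : z ≠ 0) : Complex.exp (z.arg * Complex.I) = z / ‖z‖ := by
  have h1 := Complex.norm_mul_exp_arg_mul_I z
  rw [eq_div_iff (by simpa using hz), mul_comm]
  exact h1

theorem exp_two_pi {a b : ℝ} (h : Complex.exp (a * Complex.I) = Complex.exp (b * Complex.I)) :
    ∃ n : ℤ, a - b = n * (2 * Real.pi) := by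
  rw [Complex.exp_eq_exp_iff_exists_int] at h
  obtain ⟨n, hn⟩ := h
  refine ⟨n, ?_⟩
  have h3 : ((a - b : ℝ) : ℂ) * Complex.I = (n * (2 * Real.pi)) * Complex.I := by
    push_cast
    rw [sub_mul, hn]
    ring
  have h4 := mul_right_cancel₀ Complex.I_ne_zero h3
  exact_mod_cast h4

theorem exp_im_div {F z : ℂ} (h : Complex.exp F = z) :
    Complex.exp (F.im * Complex.I) = z / ‖z‖ := by
  rw [← h, Complex.norm_exp, eq_div_iff (by simpa using (Real.exp_pos _).ne')]
  rw [Complex.ofReal_exp, ← Complex.exp_add]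
  congr 1
  rw [add_comm]
  exact Complex.re_add_im F

/-- `Re (conj u z) > 0` : the argument of `conj u z` is in `(-π/2, π/2)`. -/
theorem abs_arg_lt {w : ℂ} (hw : 0 < w.re) : |w.arg| < Real.pi / 2 :=
  Complex.abs_arg_lt_pi_div_two_iff.2 (Or.inl hw)

/-- The change of the logarithm along a path in a half plane. -/
theorem half_plane {a b : ℝ} (hab : a ≤ b) {P F : ℝ → ℂ} (hP : ContinuousOn P (Icc a b))
    (hF : ContinuousOn F (Icc a b)) (hPF : ∀ x ∈ Icc a b, Complex.exp (F x) = P x) {u : ℂ}
    (hu : ∀ x ∈ Icc a b, 0 < (u * P x).re) :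
    (F b).im - (F a).im = (u * P b).arg - (u * P a).arg := by
  have hpi := Real.pi_pos
  have hc : ContinuousOn (fun x => (u * P x).arg) (Icc a b) := by
    intro x hx
    refine ContinuousAt.comp_continuousWithinAt (g := Complex.arg) ?_
      ((continuousOn_const.mul hP) x hx)
    exact Complex.continuousAt_arg (Or.inl (hu x hx))
  have hu0 : ∀ x ∈ Icc a b, u * P x ≠ 0 := by
    intro x hx h
    have := hu x hx
    rw [h] at this
    simp at this
  set c : ℝ := (F a).im - (u * P a).arg with hcdef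
  have ha : a ∈ Icc a b := ⟨le_rfl, hab⟩
  have key : ∀ x ∈ Icc a b, ∃ n : ℤ, (F x).im - (u * P x).arg - c = n * (2 * Real.pi) := by
    intro x hx
    have e1 : ∀ y ∈ Icc a b, Complex.exp (((F y).im - (u * P y).arg : ℝ) * Complex.I) =
        ‖u‖ / u := by
      intro y hy
      have hPy : P y ≠ 0 := right_ne_zero_of_mul (hu0 y hy)
      have huy : u ≠ 0 := left_ne_zero_of_mul (hu0 y hy)
      have e2 := exp_im_div (hPF y hy)
      have e3 := exp_arg_div (hu0 y hy)
      have e4 : Complex.exp (((F y).im - (u * P y).arg : ℝ) * Complex.I) =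
          Complex.exp ((F y).im * Complex.I) / Complex.exp ((u * P y).arg * Complex.I) := by
        rw [← Complex.exp_sub]
        push_cast
        ring_nf
      rw [e4, e2, e3, norm_mul]
      have n1 : (‖P y‖ : ℂ) ≠ 0 := by simpa using hPy
      have n2 : (‖u‖ : ℂ) ≠ 0 := by simpa using huy
      push_cast
      field_simp
    have e5 : Complex.exp (((F x).im - (u * P x).arg : ℝ) * Complex.I) =
        Complex.exp ((c : ℝ) * Complex.I) := by
      rw [e1 x hx, hcdef, e1 a ha]
    exact exp_two_pi e5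
  have h2 : (F a).im - (u * P a).arg - c = (F b).im - (u * P b).arg - c :=
    const_of_two_pi_Icc hab (f := fun x => (F x).im - (u * P x).arg - c)
    (((Complex.continuous_im.comp_continuousOn hF).sub hc).sub continuousOn_const) key
  linarith

/-- Limits of continuous arguments. -/
theorem lim_arg {l : Filter ℝ} {A : ℝ → ℝ} (hA : Continuous A) {θ : ℝ}
    (hl : (l = atTop) ∨ (l = atBot))
    (h : Tendsto (fun x => Complex.exp (A x * Complex.I)) l (𝓝 (Complex.exp (θ * Complex.I)))) :
    ∃ n : ℤ, Tendsto A l (𝓝 (θ + n * (2 * Real.pi))) := by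
  have hpi := Real.pi_pos
  -- `w x = exp (i (A x - θ)) → 1`
  have h1 : Tendsto (fun x => Complex.exp (((A x - θ : ℝ) : ℂ) * Complex.I)) l (𝓝 1) := by
    have h2 := h.div_const (Complex.exp (θ * Complex.I))
    rw [div_self (Complex.exp_ne_zero _)] at h2
    refine h2.congr fun x => ?_
    rw [← Complex.exp_sub]
    push_cast
    ring_nf
  have h2 : Tendsto (fun x => (Complex.exp (((A x - θ : ℝ) : ℂ) * Complex.I)).arg) l (𝓝 0) := by
    have h3 := (Complex.continuousAt_arg (x := 1) (by simp [Complex.slitPlane])).tendsto.comp h1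
    rw [Complex.arg_one] at h3
    exact h3
  have h3 : ∀ᶠ x in l, 0 < (Complex.exp (((A x - θ : ℝ) : ℂ) * Complex.I)).re :=
    (Complex.continuous_re.tendsto 1 |>.comp h1).eventually_const_lt (by simp)
  -- on the tail the integer is constant
  have key : ∃ x0 : ℝ, ∀ᶠ x in l, (A x - θ) - (Complex.exp (((A x - θ : ℝ) : ℂ) * Complex.I)).arg =
      (A x0 - θ) - (Complex.exp (((A x0 - θ : ℝ) : ℂ) * Complex.I)).arg := by
    have step : ∀ a b : ℝ, a ≤ b → (∀ x ∈ Icc a b,
        0 < (Complex.exp (((A x - θ : ℝ) : ℂ) * Complex.I)).re) →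
        (A b - θ) - (Complex.exp (((A b - θ : ℝ) : ℂ) * Complex.I)).arg =
        (A a - θ) - (Complex.exp (((A a - θ : ℝ) : ℂ) * Complex.I)).arg := by
      intro a b hab hpos
      have h4 := half_plane (a := a) (b := b) hab
        (P := fun x => Complex.exp (((A x - θ : ℝ) : ℂ) * Complex.I))
        (F := fun x => ((A x - θ : ℝ) : ℂ) * Complex.I) (by fun_prop) (by fun_prop)
        (fun x _ => rfl) (u := 1) (fun x hx => by rw [one_mul]; exact hpos x hx)
      simp only [one_mul] at h4
      have e1 : ∀ y : ℝ, (((y : ℝ) : ℂ) * Complex.I).im = y := by intro y; simp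
      rw [e1, e1] at h4
      linarith
    rcases hl with rfl | rfl
    · obtain ⟨x0, hx0⟩ := eventually_atTop.1 h3
      refine ⟨x0, ?_⟩
      filter_upwards [eventually_ge_atTop x0] with x hx
      exact step x0 x hx fun y hy => hx0 y hy.1
    · obtain ⟨x0, hx0⟩ := eventually_atBot.1 h3
      refine ⟨x0, ?_⟩
      filter_upwards [eventually_le_atBot x0] with x hx
      exact (step x x0 hx fun y hy => hx0 y hy.2).symm
  obtain ⟨x0, hx0⟩ := key
  have e1 : Complex.exp (((A x0 - θ : ℝ) : ℂ) * Complex.I) =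
      Complex.exp (((Complex.exp (((A x0 - θ : ℝ) : ℂ) * Complex.I)).arg : ℂ) * Complex.I) := by
    rw [exp_arg_div (Complex.exp_ne_zero _), Complex.norm_exp_ofReal_mul_I]
    simp
  obtain ⟨n, hn⟩ := exp_two_pi e1
  refine ⟨n, ?_⟩
  have h5 : Tendsto (fun x => θ + n * (2 * Real.pi) +
      (Complex.exp (((A x - θ : ℝ) : ℂ) * Complex.I)).arg) l (𝓝 (θ + n * (2 * Real.pi) + 0)) :=
    h2.const_add _
  rw [add_zero] at h5
  refine h5.congr' ?_
  filter_upwards [hx0] with x hx
  rw [← hn]
  linarith

end Pool.Agent.DO
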