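import Mathlib

/-!
# MP_74f563_an, n = 2 autonomous (D2), block O, file DO/OOrd: density of the image of an order
preserving relation (Mathlib only)
-/

set_option autoImplicit false

namespace Pool.Agent.DO

open Set Filter Topology

/-- A relation `Ψ` between lifted directions: `2π`-equivariant, locally order preserving. -/
structure Rel (Ψ : Set (ℝ × ℝ)) : Prop where
  up : ∀ p ∈ Ψ, (p.1 + 2 * Real.pi, p.2 + 2 * Real.pi) ∈ Ψ
  dn : ∀ p ∈ Ψ, (p.1 - 2 * Real.pi, p.2 - 2 * Real.pi) ∈ Ψ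
  loc : ∀ p ∈ Ψ, ∀ q ∈ Ψ, p.1 < q.1 → q.1 < p.1 + Real.pi → p.2 < q.2 ∧ q.2 < p.2 + 2 * Real.pi
  dense : ∀ a b : ℝ, a < b → ∃ p ∈ Ψ, a < p.1 ∧ p.1 < b
  close : ∀ om : ℝ, ∀ δ > 0, ∃ p ∈ Ψ, ∃ q ∈ Ψ, om - δ < p.1 ∧ p.1 < om ∧ om < q.1 ∧
    q.1 < om + δ ∧ ‖Complex.exp (p.2 * Complex.I) - Complex.exp (q.2 * Complex.I)‖ < δ

variable {Ψ : Set (ℝ × ℝ)}

theorem Rel.mono (h : Rel Ψ) {p q : ℝ × ℝ} (hp : p ∈ Ψ) (hq : q ∈ Ψ) (hpq : p.1 < q.1) :
    p.2 < q.2 := by
  have hpi := Real.pi_pos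
  have key : ∀ n : ℕ, ∀ p ∈ Ψ, p.1 < q.1 → q.1 < p.1 + Real.pi + n * (Real.pi / 2) →
      p.2 < q.2 := by
    intro n
    induction n with
    | zero =>
      intro p hp h1 h2
      rw [Nat.cast_zero, zero_mul, add_zero] at h2
      exact (h.loc p hp q hq h1 h2).1
    | succ n ih =>
      intro p hp h1 h2
      rcases lt_or_ge q.1 (p.1 + Real.pi) with h3 | h3
      · exact (h.loc p hp q hq h1 h3).1
      · obtain ⟨w, hw, hw1, hw2⟩ := h.dense (p.1 + Real.pi / 2) (p.1 + Real.pi) (by linarith)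
        have h4 : p.2 < w.2 := (h.loc p hp w hw (by linarith) hw2).1
        refine h4.trans (ih w hw (by linarith) ?_)
        push_cast at h2
        linarith
  obtain ⟨n, hn⟩ := exists_nat_gt ((q.1 - p.1) / (Real.pi / 2))
  rw [div_lt_iff₀ (by positivity)] at hn
  exact key n p hp hpq (by linarith)

theorem Rel.upn (h : Rel Ψ) {p : ℝ × ℝ} (hp : p ∈ Ψ) (n : ℤ) :
    (p.1 + n * (2 * Real.pi), p.2 + n * (2 * Real.pi)) ∈ Ψ := by
  induction n using Int.induction_on with
  | zero => simpa using hp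
  | succ i ih =>
    have := h.up _ ih
    have e : ∀ x : ℝ, x + ((i : ℤ) + 1 : ℤ) * (2 * Real.pi) =
      x + ((i : ℤ) : ℝ) * (2 * Real.pi) + 2 * Real.pi := by
      intro x
      push_cast
      ring
    rw [e, e]
    exact this
  | pred i ih =>
    have := h.dn _ ih
    have e : ∀ x : ℝ, x + (-(i : ℤ) - 1 : ℤ) * (2 * Real.pi) =
      x + ((-(i : ℤ) : ℤ) : ℝ) * (2 * Real.pi) - 2 * Real.pi := by
      intro x
      push_cast
      ring
    rw [e, e]
    exact this

/-- The second coordinates of `Ψ` are dense. -/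
theorem Rel.dense_snd (h : Rel Ψ) {α β : ℝ} (hαβ : α < β) : ∃ p ∈ Ψ, α < p.2 ∧ p.2 < β := by
  have hpi := Real.pi_pos
  by_contra hno
  push Not at hno
  set S : Set ℝ := {θ | ∃ s, (θ, s) ∈ Ψ ∧ s ≤ α} with hS
  obtain ⟨p0, hp0, -, -⟩ := h.dense 0 1 one_pos
  -- nonempty
  have hne : S.Nonempty := by
    obtain ⟨n, hn⟩ := exists_nat_gt ((p0.2 - α) / (2 * Real.pi))
    rw [div_lt_iff₀ (by positivity)] at hn
    refine ⟨p0.1 + ((-(n : ℤ) : ℤ) : ℝ) * (2 * Real.pi), _, h.upn hp0 (-(n : ℤ)), ?_⟩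
    push_cast
    linarith
  -- bounded above
  have hbd : BddAbove S := by
    obtain ⟨n, hn⟩ := exists_nat_gt ((α - p0.2) / (2 * Real.pi))
    rw [div_lt_iff₀ (by positivity)] at hn
    have h1 := h.upn hp0 (n : ℤ)
    refine ⟨p0.1 + ((n : ℤ) : ℝ) * (2 * Real.pi), ?_⟩
    rintro θ ⟨s, hs, hsα⟩
    by_contra hlt
    push Not at hlt
    have h2 := h.mono h1 hs hlt
    simp only at h2
    push_cast at h2
    linarith
  set om := sSup S with hom
  have hlow : ∀ p ∈ Ψ, p.1 < om → p.2 ≤ α := by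
    intro p hp hlt
    obtain ⟨θ, ⟨s, hs, hsα⟩, hθ⟩ := exists_lt_of_lt_csSup hne hlt
    exact ((h.mono hp hs hθ).le).trans hsα
  have hhigh : ∀ p ∈ Ψ, om < p.1 → β ≤ p.2 := by
    intro p hp hlt
    have h1 : ¬ p.2 ≤ α := by
      intro hle
      exact absurd (le_csSup hbd (⟨p.2, hp, hle⟩ : p.1 ∈ S)) (not_le.2 hlt)
    exact hno p hp (not_le.1 h1)
  -- two fixed points
  obtain ⟨l, hl, hl1, hl2⟩ := h.dense (om - Real.pi) (om - Real.pi / 2) (by linarith)
  obtain ⟨l', hl', hl1', hl2'⟩ := h.dense (om - Real.pi / 2) om (by linarith)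
  set ε0 := l'.2 - l.2 with hε0
  have hε0p : 0 < ε0 := sub_pos.2 (h.mono hl hl' (by linarith))
  -- lower bound on the compact interval
  have hbound : ∃ c > 0, ∀ x ∈ Icc (β - α) (2 * Real.pi - ε0),
      c ≤ ‖Complex.exp (x * Complex.I) - 1‖ := by
    rcases (Icc (β - α) (2 * Real.pi - ε0)).eq_empty_or_nonempty with he | hne2
    · exact ⟨1, one_pos, fun x hx => by rw [he] at hx; exact hx.elim⟩
    · obtain ⟨x0, hx0, hmin⟩ := isCompact_Icc.exists_isMinOn hne2
        (f := fun x : ℝ => ‖Complex.exp (x * Complex.I) - 1‖) (by fun_prop)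
      refine ⟨_, ?_, fun x hx => hmin hx⟩
      refine norm_pos_iff.2 ?_
      intro h0
      rw [sub_eq_zero, Complex.exp_eq_one_iff] at h0
      obtain ⟨n, hn⟩ := h0
      have h1 : x0 = n * (2 * Real.pi) := by
        have h2 : (x0 : ℂ) = n * (2 * Real.pi) := by
          have h3 : (x0 : ℂ) * Complex.I = (n * (2 * Real.pi)) * Complex.I := by
            rw [hn]
            ring
          exact mul_right_cancel₀ Complex.I_ne_zero h3
        exact_mod_cast h2
      have h2 : 0 < x0 := by linarith [hx0.1]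
      have h3 : x0 < 2 * Real.pi := by linarith [hx0.2]
      rw [h1] at h2 h3
      have h4 : (0 : ℝ) < n := by
        by_contra hc
        push Not at hc
        nlinarith
      have h5 : (n : ℝ) < 1 := by
        by_contra hc
        push Not at hc
        nlinarith
      have h6 : 0 < n := by exact_mod_cast h4
      have h7 : n < 1 := by exact_mod_cast h5
      omega
  obtain ⟨c, hc, hcb⟩ := hbound
  set δ := min c (min (om - l'.1) (l.1 + Real.pi - om)) with hδ
  have hδp : 0 < δ := lt_min hc (lt_min (by linarith) (by linarith))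
  obtain ⟨p, hp, q, hq, h1, h2, h3, h4, h5⟩ := h.close om δ hδp
  have hδ1 : δ ≤ c := min_le_left _ _
  have hδ2 : δ ≤ om - l'.1 := (min_le_right _ _).trans (min_le_left _ _)
  have hδ3 : δ ≤ l.1 + Real.pi - om := (min_le_right _ _).trans (min_le_right _ _)
  have a1 := hlow p hp h2
  have a2 := hhigh q hq h3
  have a3 : l'.2 < p.2 := h.mono hl' hp (by linarith)
  have a4 : q.2 < l.2 + 2 * Real.pi := (h.loc l hl q hq (by linarith) (by linarith)).2
  have a5 := hcb (q.2 - p.2) ⟨by linarith, by linarith⟩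
  have a6 : ‖Complex.exp (((q.2 - p.2 : ℝ) : ℂ) * Complex.I) - 1‖ =
      ‖Complex.exp (p.2 * Complex.I) - Complex.exp (q.2 * Complex.I)‖ := by
    have e1 : Complex.exp (p.2 * Complex.I) - Complex.exp (q.2 * Complex.I) =
        -(Complex.exp (p.2 * Complex.I) *
          (Complex.exp (((q.2 - p.2 : ℝ) : ℂ) * Complex.I) - 1)) := by
      rw [mul_sub, ← Complex.exp_add]
      push_cast
      ring_nf
    rw [e1, norm_neg, norm_mul, Complex.norm_exp_ofReal_mul_I, one_mul]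
  rw [a6] at a5
  linarith

end Pool.Agent.DO
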